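import Pool.Agent.N85.AutQ
import Pool.Agent.N85.Wreath

/-!
# The quotient of `Aut(F₃)` by the ninth powers of Nielsen moves

`Q(3, m) = Aut(F₃) / ⟨⟨λ ^ m⟩⟩`. For every multiple `m` of `9` the inner automorphism of
`w = x₀³ x₁ x₀⁻³ x₁⁻¹` has infinite order in `Q(3, m)`, and each of its powers with positive exponent
survives in a finite quotient of `Q(3, m)`; so `Q(3, m)` has infinitely many normal subgroups of finite
index.

Proof. Let `K` be the field with `27` elements and `Gm` the group of the `1 + a t + b t² + c t³` over the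
skew polynomials `K[t; Frobenius]` modulo `t⁴`. All elements with `a ≠ 0` have the same central element
`z` of order `3` or its inverse as their cube. In the wreath product of `ℤ / k` by `Gm` the subgroup of
the elements whose base part is killed by `1 + z + z²` has the property that all elements with `a ≠ 0` have an
order which divides `9`. A primitive element of `F₃` has `a ≠ 0` under a homomorphism which is
surjective onto `K`. So the ninth powers of all primitive elements are killed, and `Aut(F₃)` acts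
on the finite set of the homomorphisms with this property; `λ ^ 9` acts trivially.
-/

set_option autoImplicit false

namespace Pool.Agent.Results.MP_73474e_al.ExplicitPair

open FreeGroup

/-- `σ` is a Nielsen move: `σ(x_i) = x_j x_i` for some `i ≠ j`, and `σ` fixes the other basis elements. -/
def IsNielsenMove (σ : MulAut (FreeGroup (Fin 3))) : Prop :=
  ∃ i j : Fin 3, i ≠ j ∧ σ (of i) = of j * of i ∧ ∀ k : Fin 3, k ≠ i → σ (of k) = of k

/-- `Q(3, m)`, the quotient of `Aut(F₃)` by the normal closure of `σ ^ m`. -/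
abbrev Q (σ : MulAut (FreeGroup (Fin 3))) (m : ℕ) : Type :=
  MulAut (FreeGroup (Fin 3)) ⧸
    Subgroup.normalClosure ({σ ^ m} : Set (MulAut (FreeGroup (Fin 3))))

/-- the word `x₀³ x₁ x₀⁻³ x₁⁻¹` -/
def w : FreeGroup (Fin 3) := of 0 ^ 3 * of 1 * (of 0 ^ 3)⁻¹ * (of 1)⁻¹

theorem survives {i j : Fin 3} (hij : i ≠ j) (σ : MulAut (FreeGroup (Fin 3)))
    (hi : σ (of i) = of j * of i) (hk : ∀ k, k ≠ i → σ (of k) = of k) (m : ℕ) (hm : 9 ∣ m)
    (M : ℕ) (hM : 0 < M) :
    ∃ N : Subgroup (Q σ m), N.Normal ∧ N.FiniteIndex ∧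
      (QuotientGroup.mk (MulAut.conj w) : Q σ m) ^ M ∉ N := by
  have : NeZero (M + 1) := ⟨by omega⟩
  let E := Pool.Agent.N85.Wreath.E (M + 1)
  let φ : FreeGroup (Fin 3) →* E := Pool.Agent.N85.Wreath.phi (M + 1)
  have hφ : ∀ α : MulAut (FreeGroup (Fin 3)), φ (α (of j)) ^ m = 1 := by
    intro α
    obtain ⟨c, rfl⟩ := hm
    rw [pow_mul, Pool.Agent.N85.Wreath.prim_pow (M + 1) α j, one_pow]
  have hker : Subgroup.normalClosure ({σ ^ m} : Set (MulAut (FreeGroup (Fin 3)))) ≤
      (Pool.Agent.N85.AutQ.act E j m).ker := by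
    have : (Pool.Agent.N85.AutQ.act E j m).ker.Normal := inferInstance
    apply Subgroup.normalClosure_le_normal
    rintro _ rfl
    rw [SetLike.mem_coe, MonoidHom.mem_ker]
    apply Equiv.ext
    intro ψ
    apply Subtype.ext
    apply FreeGroup.ext_hom
    intro k
    have key : ∀ x : FreeGroup (Fin 3), ψ.1 ((σ ^ m) x) = ψ.1 x := by
      have h1 : ψ.1.comp (σ ^ m).toMonoidHom = ψ.1 := by
        apply FreeGroup.ext_hom
        intro k
        by_cases h : k = i
        · subst h
          change ψ.1 ((σ ^ m) (of k)) = _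
          have := ψ.2 1
          rw [MulAut.one_apply] at this
          rw [Pool.Agent.N85.AutQ.pow_apply hij σ hi hk m, _root_.map_mul, map_pow, this, one_mul]
        · change ψ.1 ((σ ^ m) (of k)) = _
          rw [Pool.Agent.N85.AutQ.pow_apply' σ hk m k h]
      exact fun x => DFunLike.congr_fun h1 x
    rw [Pool.Agent.N85.AutQ.act_apply]
    change ψ.1 ((σ ^ m)⁻¹ (of k)) = ψ.1 (of k)
    rw [← key ((σ ^ m)⁻¹ (of k)), MulAut.apply_inv_self]
  let bar : Q σ m →* Equiv.Perm (Pool.Agent.N85.AutQ.T E j m) :=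
    QuotientGroup.lift _ (Pool.Agent.N85.AutQ.act E j m) hker
  refine ⟨bar.ker, inferInstance, inferInstance, ?_⟩
  intro h2
  rw [MonoidHom.mem_ker, ← QuotientGroup.mk_pow] at h2
  have h3 : Pool.Agent.N85.AutQ.act E j m (MulAut.conj w ^ M) = 1 := h2
  have h4 : φ ((MulAut.conj w ^ M)⁻¹ (of 2)) = φ (of 2) := by
    have h5 : (Pool.Agent.N85.AutQ.act E j m (MulAut.conj w ^ M) ⟨φ, hφ⟩).1 (of 2) = φ (of 2) := by
      rw [h3]
      rfl
    exact h5
  rw [← map_pow, ← _root_.map_inv, MulAut.conj_apply, _root_.map_mul, _root_.map_mul, inv_inv]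
    at h4
  rw [_root_.map_inv, map_pow] at h4
  refine Pool.Agent.N85.Wreath.not_commute (M + 1) M hM (by omega) ?_
  change φ w ^ M * φ (of 2) = φ (of 2) * φ w ^ M
  calc φ w ^ M * φ (of 2) = φ w ^ M * ((φ w ^ M)⁻¹ * φ (of 2) * φ w ^ M) := by
        rw [h4]
    _ = φ (of 2) * φ w ^ M := by group

/-- **Theorem.** Let `σ` be a Nielsen move of `F₃` and `m` a multiple of `9`. (1) `Q(3, m)` has infinitely
many normal subgroups of finite index. (2) For every `M ≥ 1` there is a normal subgroup of finite index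
of `Q(3, m)` which does not contain the `M`-th power of the class of the inner automorphism of
`w = x₀³ x₁ x₀⁻³ x₁⁻¹`; in particular, this class has infinite order. -/
theorem result (σ : MulAut (FreeGroup (Fin 3))) (hσ : IsNielsenMove σ) (m : ℕ) (hm : 9 ∣ m) :
    Set.Infinite {N : Subgroup (Q σ m) | N.Normal ∧ N.FiniteIndex} ∧
      ∀ M : ℕ, 0 < M → ∃ N : Subgroup (Q σ m), N.Normal ∧ N.FiniteIndex ∧
        (QuotientGroup.mk (MulAut.conj w) : Q σ m) ^ M ∉ N := by
  obtain ⟨i, j, hij, hi, hk⟩ := hσ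
  have h := survives hij σ hi hk m hm
  refine ⟨fun hfin => ?_, h⟩
  set S : Set (Subgroup (Q σ m)) := {N | N.Normal ∧ N.FiniteIndex} with hS
  have : Finite S := hfin
  set K0 : Subgroup (Q σ m) := ⨅ N : S, (N : Subgroup (Q σ m)) with hK0
  have hnorm : K0.Normal := Subgroup.normal_iInf_normal fun N => N.2.1
  have hfi : K0.FiniteIndex := Subgroup.finiteIndex_iInf fun N => N.2.2
  obtain ⟨N, h1, h2, h3⟩ := h K0.index (Nat.pos_of_ne_zero hfi.index_ne_zero)
  have hle : K0 ≤ N := iInf_le (fun N : S => (N : Subgroup (Q σ m))) ⟨N, h1, h2⟩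
  exact h3 (hle (Subgroup.pow_index_mem K0 _))

end Pool.Agent.Results.MP_73474e_al.ExplicitPair
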